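import Pool.Agent.Zk51.PC.Final

/-!
# Skew endomorphisms of abelian varieties, ranks and root numbers: general lemmas
-/

set_option autoImplicit false

open NumberField IsDedekindDomain Polynomial Pool.Agent.Zk51.PC

namespace Pool.Agent.Zk66.PG

section Rank

variable {V : Type} [AddCommGroup V] [Module ℚ V] {h : V → V → ℝ}

lemma zero_left (hh : IsHeight V h) (y : V) : h 0 y = 0 := by
  have h1 := hh.smul 0 0 y
  rw [zero_smul, Rat.cast_zero, zero_mul] at h1
  exact h1

lemma zero_right (hh : IsHeight V h) (y : V) : h y 0 = 0 := by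
  rw [hh.symm, zero_left hh]

lemma neg_left (hh : IsHeight V h) (x y : V) : h (-x) y = -h x y := by
  rw [← neg_one_smul ℚ x, hh.smul]
  push_cast
  ring

lemma neg_right (hh : IsHeight V h) (x y : V) : h x (-y) = -h x y := by
  rw [hh.symm, neg_left hh, hh.symm]

lemma eq_zero_of_self (hh : IsHeight V h) {x : V} (hx : h x x = 0) : x = 0 := by
  by_contra h0
  have h1 := hh.pos 1 (fun _ => x) (LinearIndependent.of_subsingleton 0 h0) (fun _ => 1)
    (fun h2 => one_ne_zero (congrFun h2 0))
  simp [hx] at h1

/-- A skew injective operator: the dimension is even. -/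
theorem even_of_height [Module.Finite ℚ V] (hh : IsHeight V h) (f : V →ₗ[ℚ] V)
    (hf : Function.Injective f) (hs : ∀ x y, h (f x) y = -h x (f y)) :
    Even (Module.finrank ℚ V) := by
  let b := Module.finBasis ℚ V
  let M := LinearMap.toMatrix b b f
  let H : Matrix (Fin (Module.finrank ℚ V)) (Fin (Module.finrank ℚ V)) ℝ :=
    Matrix.of fun i j => h (b i) (b j)
  have hH : H.det ≠ 0 := by
    intro h0
    obtain ⟨c, hc, hc'⟩ := Matrix.exists_mulVec_eq_zero_iff.2 h0
    have h1 := hh.pos _ b b.linearIndependent c hc
    have h2 : ∑ i, ∑ j, c i * c j * h (b i) (b j) = 0 := by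
      refine Finset.sum_eq_zero fun i _ => ?_
      have h3 := congrFun hc' i
      calc ∑ j, c i * c j * h (b i) (b j) = c i * (H.mulVec c) i := by
            rw [Matrix.mulVec, dotProduct, Finset.mul_sum]
            refine Finset.sum_congr rfl fun j _ => ?_
            change _ = c i * (h (b i) (b j) * c j)
            ring
        _ = 0 := by rw [h3, Pi.zero_apply, mul_zero]
    rw [h2] at h1
    exact lt_irrefl _ h1
  have hM : M.det ≠ 0 := by
    have h2 : IsUnit M.det := by
      rw [LinearMap.det_toMatrix]
      exact ((Module.End.isUnit_iff f).2 ⟨hf, LinearMap.injective_iff_surjective.1 hf⟩).map LinearMap.det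
    exact h2.ne_zero
  let M' : Matrix (Fin (Module.finrank ℚ V)) (Fin (Module.finrank ℚ V)) ℝ :=
    M.map (algebraMap ℚ ℝ)
  have hM' : M'.det ≠ 0 := by
    have h1 : M'.det = algebraMap ℚ ℝ M.det := (RingHom.map_det _ _).symm
    rw [h1]
    exact (map_ne_zero_iff _ (algebraMap ℚ ℝ).injective).2 hM
  have hbasis : ∀ j, f (b j) = ∑ i, M i j • b i := by
    intro j
    conv_lhs => rw [← b.sum_repr (f (b j))]
    exact Finset.sum_congr rfl fun i _ =>
      congrArg (fun c : ℚ => c • b i) (LinearMap.toMatrix_apply b b f i j).symm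
  have hsum : ∀ (s : Finset (Fin (Module.finrank ℚ V))) (c : Fin (Module.finrank ℚ V) → ℚ)
      (y : V), h (∑ i ∈ s, c i • b i) y = ∑ i ∈ s, (c i : ℝ) * h (b i) y := by
    intro s c y
    classical
    induction s using Finset.induction_on with
    | empty =>
      rw [Finset.sum_empty, Finset.sum_empty]
      exact zero_left hh y
    | insert i s hi ih =>
      rw [Finset.sum_insert hi, Finset.sum_insert hi, hh.add, hh.smul, ih]
  have h1 : M'.transpose * H = -(H * M') := by
    ext i j
    have h2 := hs (b i) (b j)
    rw [hh.symm (b i) (f (b j)), hbasis, hbasis, hsum, hsum] at h2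
    rw [Matrix.mul_apply, Matrix.neg_apply, Matrix.mul_apply]
    have h3 : ∀ k, (M'.transpose i k) * H k j = (M k i : ℝ) * h (b k) (b j) := fun k => rfl
    have h4 : ∀ k, H i k * M' k j = (M k j : ℝ) * h (b k) (b i) := by
      intro k
      rw [hh.symm (b k), mul_comm]
      rfl
    rw [Finset.sum_congr rfl fun k _ => h3 k, Finset.sum_congr rfl fun k _ => h4 k, h2]
  have h2 := congrArg Matrix.det h1
  rw [Matrix.det_mul, Matrix.det_transpose, Matrix.det_neg, Matrix.det_mul, Fintype.card_fin] at h2
  by_contra hodd
  rw [Nat.not_even_iff_odd] at hodd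
  rw [hodd.neg_one_pow] at h2
  have h3 : M'.det * H.det = 0 := by linarith [mul_comm H.det M'.det]
  rcases mul_eq_zero.1 h3 with h4 | h4
  · exact hM' h4
  · exact hH h4

/-- The rank of a skew operator is even. -/
theorem even_finrank_range [Module.Finite ℚ V] (hh : IsHeight V h) (f : V →ₗ[ℚ] V)
    (hs : ∀ x y, h (f x) y = -h x (f y)) : Even (Module.finrank ℚ (LinearMap.range f)) := by
  have hW : IsHeight (LinearMap.range f) (fun x y => h x y) :=
    { add := fun x x' y => hh.add x x' y
      smul := fun c x y => hh.smul c x y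
      symm := fun x y => hh.symm x y
      pos := fun n x hx c hc => hh.pos n (fun i => (x i : V))
        (hx.map' (LinearMap.range f).subtype (Submodule.ker_subtype _)) c hc }
  let g : LinearMap.range f →ₗ[ℚ] LinearMap.range f :=
    (f.comp (LinearMap.range f).subtype).codRestrict (LinearMap.range f)
      (fun x => LinearMap.mem_range_self f _)
  have hg : ∀ x : LinearMap.range f, ((g x : LinearMap.range f) : V) = f x := fun x => rfl
  refine even_of_height hW g ?_ (fun x y => ?_)
  · rw [injective_iff_map_eq_zero]
    intro x hx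
    have h1 : f (x : V) = 0 := by rw [← hg, hx]; rfl
    obtain ⟨y, hy⟩ := x.2
    have h2 : h (x : V) x = 0 := by
      calc h (x : V) x = h (f y) x := by rw [hy]
        _ = -h y (f x) := hs _ _
        _ = 0 := by rw [h1, zero_right hh, neg_zero]
    exact Subtype.ext (eq_zero_of_self hh h2)
  · exact hs x y

/-- The ranges of idempotents. -/
lemma finrank_range_idem [Module.Finite ℚ V] (e f : V →ₗ[ℚ] V) (he : e * e = e) (hf : f * f = f)
    (hef : e * f = f) (hfe : f * e = f) :
    Module.finrank ℚ (LinearMap.range e) = Module.finrank ℚ (LinearMap.range f) +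
      Module.finrank ℚ (LinearMap.range (e - f)) := by
  have hg : (e - f) * (e - f) = e - f := by
    rw [sub_mul, mul_sub, mul_sub, he, hef, hfe, hf, sub_self, sub_zero]
  have h1 := (LinearMap.IsIdempotentElem.isProj_range e he).trace
  have h2 := (LinearMap.IsIdempotentElem.isProj_range f hf).trace
  have h3 := (LinearMap.IsIdempotentElem.isProj_range (e - f) hg).trace
  rw [map_sub, h1, h2] at h3
  have h4 : (Module.finrank ℚ (LinearMap.range e) : ℚ) =
      Module.finrank ℚ (LinearMap.range f) + Module.finrank ℚ (LinearMap.range (e - f)) := by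
    linarith
  exact_mod_cast h4

end Rank

end Pool.Agent.Zk66.PG
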