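import Pool.Agent.Zk66.PG.A

/-!
# Root numbers of the parts of an abelian variety cut out by idempotents
-/

set_option autoImplicit false

open NumberField IsDedekindDomain Polynomial Pool.Agent.Zk51.PC

namespace Pool.Agent.Zk66.PG

section Algebra

variable {D : Type} [Ring D] [Algebra ℚ D] [Module.Finite ℚ D]

/-- A polynomial which is zero at the nonzero eigenvalues. -/
lemma exists_nu [Nontrivial D] {a b g : D} (hba : b * a = g) (hga : g * a = a) :
    ∃ ν : ℚ[X], ν.coeff 0 ≠ 0 ∧ a * aeval a ν = 0 ∧
      ∀ α ∈ eigenvalues a, α ≠ 0 → aeval α ν = 0 := by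
  have hint : IsIntegral ℚ a := Algebra.IsIntegral.isIntegral a
  by_cases hX : X ∣ minpoly ℚ a
  · obtain ⟨ν, hν⟩ := hX
    have hν0 : ν ≠ 0 := by
      rintro rfl
      rw [mul_zero] at hν
      exact minpoly.ne_zero hint hν
    have h1 : a * aeval a ν = 0 := by
      have h2 := minpoly.aeval ℚ a
      rwa [hν, map_mul, aeval_X] at h2
    refine ⟨ν, fun h0 => ?_, h1, fun α hα hne => ?_⟩
    · obtain ⟨l, hl⟩ := X_dvd_iff.2 h0
      have h2 : aeval a ν = 0 := by
        have h3 : b * (a * (a * aeval a l)) = 0 := by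
          have h4 : a * aeval a l = aeval a ν := by rw [hl, map_mul, aeval_X]
          rw [h4, h1, mul_zero]
        rw [← mul_assoc, hba, ← mul_assoc, hga] at h3
        rw [hl, map_mul, aeval_X, h3]
      have h3 := minpoly.dvd ℚ a h2
      rw [hν] at h3
      have h4 := degree_le_of_dvd h3 hν0
      rw [degree_mul, degree_X, degree_eq_natDegree hν0] at h4
      have h5 : ((1 + ν.natDegree : ℕ) : WithBot ℕ) ≤ (ν.natDegree : WithBot ℕ) := by
        rw [Nat.cast_add, Nat.cast_one]
        exact h4
      rw [Nat.cast_le] at h5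
      omega
    · rw [mem_eigenvalues, hν, map_mul, aeval_X] at hα
      exact (mul_eq_zero.1 hα).resolve_left hne
  · refine ⟨minpoly ℚ a, fun h0 => hX (X_dvd_iff.2 h0), ?_, fun α hα _ => mem_eigenvalues.1 hα⟩
    rw [minpoly.aeval, mul_zero]

/-- The idempotent which belongs to the nonzero eigenvalues is a polynomial in `a`. -/
lemma exists_poly [Nontrivial D] {a b g : D} (hab : a * b = g) (hba : b * a = g) (hga : g * a = a) :
    ∃ q : ℚ[X], aeval a q = g ∧ ∀ α ∈ eigenvalues a, (aeval α q = 1 ↔ α ≠ 0) := by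
  obtain ⟨ν, h0, h1, h2⟩ := exists_nu hba hga
  set c : ℚ := (ν.coeff 0)⁻¹ with hc
  have hc0 : c * ν.coeff 0 = 1 := inv_mul_cancel₀ h0
  set q : ℚ[X] := 1 - C c * ν with hq
  have hq0 : q.coeff 0 = 0 := by
    rw [hq, coeff_sub, coeff_one_zero, coeff_C_mul, hc0, sub_self]
  obtain ⟨r, hr⟩ := X_dvd_iff.2 hq0
  have hqa : aeval a q = 1 - c • aeval a ν := by
    rw [hq, map_sub, map_one, map_mul, aeval_C, Algebra.smul_def]
  have hνa : aeval a ν * a = 0 := by
    have h3 : aeval a ν * a = a * aeval a ν := by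
      have h4 : aeval a (ν * X) = aeval a (X * ν) := by rw [mul_comm]
      rw [map_mul, map_mul, aeval_X] at h4
      exact h4
    rw [h3, h1]
  have h3 : aeval a q * g = g := by
    rw [hqa, sub_mul, one_mul, smul_mul_assoc, ← hab, ← mul_assoc, hνa, zero_mul, smul_zero, sub_zero]
  have h4 : aeval a q * g = aeval a q := by
    have h5 : aeval a q = aeval a r * a := by
      rw [hr, mul_comm, map_mul, aeval_X]
    have h6 : a * g = a := by
      rw [← hba, ← mul_assoc, hab, hga]
    rw [h5, mul_assoc, h6]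
  refine ⟨q, by rw [← h4, h3], fun α hα => ⟨?_, fun hne => ?_⟩⟩
  · rintro h5 rfl
    rw [← coeff_zero_eq_aeval_zero', hq0, map_zero] at h5
    exact zero_ne_one h5
  · have h5 : aeval α q = 1 - (algebraMap ℚ ℂ c) * aeval α ν := by
      rw [hq, map_sub, map_one, map_mul, aeval_C]
    rw [h5, h2 α hα hne, mul_zero, sub_zero]

end Algebra

variable {K : Type} [Field K] [NumberField K] {T : ∀ v : Place K, LocalTheory (Compl K v)}

open Classical in
/-- The generalized eigenspaces of a polynomial `p(a)` are the sums of those of `a`. -/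
def PolyPieces (A : AbVar K T) : Prop :=
  ∀ (v : Place K) (a : A.D) (p : ℚ[X]) (β : ℂ), A.reps.piece v (aeval a p) β =
    ∑ α ∈ (eigenvalues a).filter (fun α => aeval α p = β), A.reps.piece v a α

/-- The product of the root numbers of the generalized eigenspaces of `e` for the eigenvalue `α`. -/
noncomputable def rootAt (A : AbVar K T) (e : A.D) (α : ℂ) : ℂˣ :=
  ∏ᶠ v : Place K, (T v).root (A.reps.piece v e α)

lemma skew_prod (A : AbVar K T) {a : A.D} (hs : star a = -a) :
    ∏ᶠ v : Place K, ∏ α ∈ (eigenvalues a).erase 0, (T v).root (A.reps.piece v a α) = 1 := by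
  classical
  have h1 : ∀ v : Place K, ∏ α ∈ (eigenvalues a).erase 0, (T v).root (A.reps.piece v a α) =
      ∏ α ∈ half ((eigenvalues a).erase 0), (T v).det (A.reps.piece v a α) (-1) := by
    intro v
    rw [prod_half _ (Finset.notMem_erase _ _) (fun α hα => ?_)]
    · refine Finset.prod_congr rfl fun α _ => ?_
      rw [← A.reps.neg, ← hs, ← A.reps.dual, (T v).root_dual]
    · rw [Finset.mem_erase] at hα ⊢
      exact ⟨neg_ne_zero.2 hα.1, neg_mem_eigenvalues hs hα.2⟩
  choose ψ hψ using fun α => A.reps.det a α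
  rw [finprod_congr h1, finprod_prod_comm]
  · refine Finset.prod_eq_one fun α _ => ?_
    rw [← hecke_neg_one (ψ α)]
    exact finprod_congr fun v => by rw [hψ α v]
  · intro α _
    have h2 := hecke_finite (ψ α)
    refine h2.subset ?_
    intro v hv
    change (ψ α).loc v (-1) ≠ 1
    rw [← hψ α v]
    exact hv

/-- The root numbers of an abelian variety and of the kernel of a skew endomorphism. -/
theorem globalRoot_ker (A : AbVar K T) (hP : PolyPieces A) {a : A.D} (hs : star a = -a) :
    A.globalRoot = rootAt A a 0 := by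
  classical
  have h1 : ∀ v : Place K, A.localRoot v = (T v).root (A.reps.piece v a 0) *
      ∏ α ∈ (eigenvalues a).erase 0, (T v).root (A.reps.piece v a α) := by
    intro v
    unfold AbVar.localRoot
    rw [A.reps.sum v a, root_sum]
    by_cases h0 : (0 : ℂ) ∈ eigenvalues a
    · exact (Finset.mul_prod_erase _ _ h0).symm
    · have h2 := hP v a X 0
      rw [aeval_X, Finset.filter_eq_empty_iff.2, Finset.sum_empty] at h2
      · rw [h2, (T v).root_zero, one_mul, Finset.erase_eq_of_notMem h0]
      · intro α hα h3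
        rw [aeval_X] at h3
        exact h0 (h3 ▸ hα)
  unfold AbVar.globalRoot rootAt
  rw [finprod_congr h1, finprod_mul_distrib, skew_prod A hs, mul_one]
  · exact A.reps.good a 0
  · refine (Set.Finite.biUnion (Finset.finite_toSet ((eigenvalues a).erase 0))
      fun α _ => A.reps.good a α).subset ?_
    intro v hv
    by_contra hcon
    apply hv
    refine Finset.prod_eq_one fun α hα => ?_
    by_contra h2
    exact hcon (Set.mem_biUnion hα h2)

/-- The part on which a skew endomorphism is invertible has the root number one. -/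
theorem rootAt_skew (A : AbVar K T) (hP : PolyPieces A) {a b g : A.D} (hs : star a = -a)
    (hab : a * b = g) (hba : b * a = g) (hga : g * a = a) : rootAt A g 1 = 1 := by
  classical
  obtain ⟨q, hq, hq'⟩ := exists_poly hab hba hga
  have h1 : ∀ v : Place K, (T v).root (A.reps.piece v g 1) =
      ∏ α ∈ (eigenvalues a).erase 0, (T v).root (A.reps.piece v a α) := by
    intro v
    have h2 := hP v a q 1
    rw [hq] at h2
    rw [h2, root_sum]
    refine Finset.prod_congr ?_ fun _ _ => rfl
    ext α
    rw [Finset.mem_filter, Finset.mem_erase]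
    exact ⟨fun h => ⟨(hq' α h.1).1 h.2, h.1⟩, fun h => ⟨h.2, (hq' α h.2).2 h.1⟩⟩
  unfold rootAt
  rw [finprod_congr h1, skew_prod A hs]

/-- The root numbers are multiplicative for orthogonal idempotents. -/
theorem rootAt_idem (A : AbVar K T) (hP : PolyPieces A) {e f : A.D} (he : e * e = e)
    (hf : f * f = f) (hef : e * f = f) (hfe : f * e = f) :
    rootAt A e 1 = rootAt A f 1 * rootAt A (e - f) 1 := by
  classical
  set c : A.D := (2 : ℚ) • e - f with hc
  have hc2 : c * c = (4 : ℚ) • e - (3 : ℚ) • f := by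
    rw [hc, sub_mul, mul_sub, mul_sub, smul_mul_smul_comm, he, smul_mul_assoc, hef, mul_smul_comm, hfe,
      hf]
    module
  have hc3 : c * (c * c) = (8 : ℚ) • e - (7 : ℚ) • f := by
    rw [hc2, hc, sub_mul, mul_sub, mul_sub, smul_mul_smul_comm, smul_mul_smul_comm, he, hef,
      mul_smul_comm, mul_smul_comm, hfe, hf]
    module
  have hroot : ∀ α ∈ eigenvalues c, α = 0 ∨ α = 1 ∨ α = 2 := by
    intro α hα
    have h1 : aeval c (X * (X - C (1 : ℚ)) * (X - C 2) : ℚ[X]) = 0 := by
      have h2 : (X * (X - C (1 : ℚ)) * (X - C 2) : ℚ[X]) = X * (X * X) - C 3 * (X * X) + C 2 * X := by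
        rw [show (C (1 : ℚ) : ℚ[X]) = 1 from map_one C, show (C (2 : ℚ) : ℚ[X]) = 2 from rfl,
          show (C (3 : ℚ) : ℚ[X]) = 3 from rfl]
        ring
      rw [h2]
      simp only [map_add, map_sub, map_mul, aeval_X, aeval_C]
      rw [hc3, hc2, ← Algebra.smul_def, ← Algebra.smul_def, hc]
      module
    obtain ⟨r, hr⟩ := minpoly.dvd ℚ c h1
    have h2 : aeval α (X * (X - C (1 : ℚ)) * (X - C 2) : ℚ[X]) = 0 := by
      rw [hr, map_mul, mem_eigenvalues.1 hα, zero_mul]
    simp only [map_mul, map_sub, aeval_X, map_one, map_ofNat] at h2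
    rcases mul_eq_zero.1 h2 with h3 | h3
    · rcases mul_eq_zero.1 h3 with h4 | h4
      · exact Or.inl h4
      · exact Or.inr (Or.inl (sub_eq_zero.1 h4))
    · exact Or.inr (Or.inr (sub_eq_zero.1 h3))
  have e1 : aeval c (C (3 / 2 : ℚ) * X - C (1 / 2 : ℚ) * (X * X) : ℚ[X]) = e := by
    simp only [map_sub, map_mul, aeval_X, aeval_C, hc2]
    rw [← Algebra.smul_def, ← Algebra.smul_def, hc]
    module
  have e2 : aeval c (C (2 : ℚ) * X - C (1 : ℚ) * (X * X) : ℚ[X]) = f := by
    simp only [map_sub, map_mul, aeval_X, aeval_C, hc2]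
    rw [← Algebra.smul_def, ← Algebra.smul_def, hc]
    module
  have e3 : aeval c (C (-1 / 2 : ℚ) * X + C (1 / 2 : ℚ) * (X * X) : ℚ[X]) = e - f := by
    simp only [map_add, map_mul, aeval_X, aeval_C, hc2]
    rw [← Algebra.smul_def, ← Algebra.smul_def, hc]
    module
  have key : ∀ v : Place K, (T v).root (A.reps.piece v e 1) =
      (T v).root (A.reps.piece v f 1) * (T v).root (A.reps.piece v (e - f) 1) := by
    intro v
    have h1 := hP v c _ 1 |>.symm.trans (congrArg (fun x => A.reps.piece v x 1) e1)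
    have h2 := hP v c _ 1 |>.symm.trans (congrArg (fun x => A.reps.piece v x 1) e2)
    have h3 := hP v c _ 1 |>.symm.trans (congrArg (fun x => A.reps.piece v x 1) e3)
    rw [← (T v).root_add, ← h1, ← h2, ← h3, ← Finset.sum_union]
    · congr 1
      refine Finset.sum_congr ?_ fun _ _ => rfl
      ext α
      simp only [Finset.mem_union, Finset.mem_filter, map_sub, map_add, map_mul, aeval_X, aeval_C]
      rw [← and_or_left]
      refine and_congr_right fun hα => ?_
      rcases hroot α hα with rfl | rfl | rfl <;> norm_num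
    · rw [Finset.disjoint_left]
      intro α hα hα'
      simp only [Finset.mem_filter, map_sub, map_add, map_mul, aeval_X, aeval_C] at hα hα'
      rcases hroot α hα.1 with rfl | rfl | rfl
      · norm_num at hα
      · norm_num at hα'
      · norm_num at hα
  unfold rootAt
  rw [finprod_congr key, finprod_mul_distrib]
  · exact A.reps.good f 1
  · exact A.reps.good (e - f) 1

end Pool.Agent.Zk66.PG
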